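import Pool.Agent.W347.QT.A2

/-!
# QT-A, part 3: the residue of the localization identity along a weight
-/

set_option linter.all false

namespace Pool.Agent.W347.QT

open Pool.Agent.W31.QT MvPolynomial
open scoped BigOperators

section lin
variable {n : ℕ}

theorem lin_sub_smul (w u : Fin n → ℤ) (c : ℤ) : lin (w - c • u) = lin w - C (c : ℚ) * lin u := by
  unfold lin
  rw [Finset.mul_sum, ← Finset.sum_sub_distrib]
  refine Finset.sum_congr rfl fun j _ => ?_
  simp only [Pi.sub_apply, Pi.smul_apply, smul_eq_mul, Int.cast_sub, Int.cast_mul, map_sub, map_mul]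
  ring

theorem lin_smul (u : Fin n → ℤ) (c : ℤ) : lin (c • u) = C (c : ℚ) * lin u := by
  unfold lin
  rw [Finset.mul_sum]
  refine Finset.sum_congr rfl fun j _ => ?_
  simp only [Pi.smul_apply, smul_eq_mul, Int.cast_mul, map_mul]
  ring

theorem lin_inj (w w' : Fin n → ℤ) (h : lin w = lin w') : w = w' := by
  funext j
  have h1 := congrArg (eval (fun i => if i = j then (1:ℚ) else 0)) h
  simp only [lin, map_sum, map_mul, eval_C, eval_X, mul_ite, mul_one, mul_zero,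
    Finset.sum_ite_eq', Finset.mem_univ, if_true] at h1
  exact_mod_cast h1

theorem lin_zero : lin (0 : Fin n → ℤ) = 0 := by
  simp [lin]

/-- substitution killing `lin u` when `u ⬝ᵥ y = 1` -/
noncomputable def rho (u y : Fin n → ℤ) : MvPolynomial (Fin n) ℚ →ₐ[ℚ] MvPolynomial (Fin n) ℚ :=
  aeval (fun j => X j - C (y j : ℚ) * lin u)

theorem rho_lin (u y w : Fin n → ℤ) : rho u y (lin w) = lin (w - (w ⬝ᵥ y) • u) := by
  rw [lin_sub_smul]
  unfold rho
  have h1 : lin w = ∑ j, C (w j : ℚ) * X j := rfl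
  rw [h1, map_sum]
  simp only [map_mul, aeval_X, algHom_C, algebraMap_eq]
  have h2 : (C ((w ⬝ᵥ y : ℤ) : ℚ) : MvPolynomial (Fin n) ℚ) = ∑ j, C (w j : ℚ) * C (y j : ℚ) := by
    unfold dotProduct
    rw [Int.cast_sum, map_sum]
    refine Finset.sum_congr rfl fun j _ => ?_
    rw [Int.cast_mul, map_mul]
  rw [h2, Finset.sum_mul, ← Finset.sum_sub_distrib]
  refine Finset.sum_congr rfl fun j _ => ?_
  ring

theorem rho_zero_iff (u y w : Fin n → ℤ) : rho u y (lin w) = 0 ↔ w = (w ⬝ᵥ y) • u := by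
  rw [rho_lin]
  constructor
  · intro h
    have := lin_inj _ 0 (by rw [h, lin_zero])
    exact sub_eq_zero.mp this
  · intro h
    rw [sub_eq_zero.mpr h, lin_zero]

end lin

section core
variable {n : ℕ}

/-- The weights of the `a`-th fixed point. -/
def Wt (L : List (FixedPoint n)) (a : Fin L.length) : Matrix (Fin n) (Fin n) ℤ := (L[a.1]).wt

/-- The sign of the `a`-th fixed point. -/
def Sg (L : List (FixedPoint n)) (a : Fin L.length) : ℤ := ((L[a.1]).sgn : ℤ)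

def Rel (L : List (FixedPoint n)) (x0 x : Fin L.length × Fin n) : Prop :=
  (∃ ε : ℤ, ε * ε = 1 ∧ Wt L x.1 x.2 = ε • Wt L x0.1 x0.2) ∧
    ∃ σ : Equiv.Perm (Fin n), σ x0.2 = x.2 ∧ ∀ j, j ≠ x0.2 → ∃ c : ℤ,
      Wt L x.1 (σ j) = Wt L x0.1 j + c • Wt L x0.1 x0.2

theorem isUnit_Wt (L : List (FixedPoint n)) (a : Fin L.length) : IsUnit (Wt L a).det :=
  (L[a.1]).unimod

theorem locSum_eq (L : List (FixedPoint n)) (f : MvPolynomial (Fin n) ℚ) :
    locSum L f = ∑ a : Fin L.length, ((Sg L a : ℤ) : FractionRing (MvPolynomial (Fin n) ℚ)) *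
      algebraMap _ _ (aeval (fun i => lin (Wt L a i)) f) /
      algebraMap _ _ (∏ i, lin (Wt L a i)) := by
  rw [locSum, ← Fin.sum_univ_fun_getElem]
  rfl

/-- basic facts about the zeros of `rho u y` on weights -/
theorem z_zero (W : Matrix (Fin n) (Fin n) ℤ) (hW : IsUnit W.det) (u y : Fin n → ℤ) (j : Fin n)
    (h : rho u y (lin (W j)) = 0) :
    (W j ⬝ᵥ y) * (W j ⬝ᵥ y) = 1 ∧ W j = (W j ⬝ᵥ y) • u := by
  have h1 := (rho_zero_iff u y (W j)).mp h
  refine ⟨?_, h1⟩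
  have h2 := dual_mulVec W hW j j
  rw [if_pos rfl, h1, smul_dotProduct, smul_eq_mul] at h2
  rcases Int.eq_one_or_neg_one_of_mul_eq_one h2 with h3 | h3 <;> rw [h3] <;> norm_num

theorem zero_of_smul (u y w : Fin n → ℤ) (huy : u ⬝ᵥ y = 1) (ε : ℤ) (h : w = ε • u) :
    rho u y (lin w) = 0 := by
  rw [rho_zero_iff, h, smul_dotProduct, huy]
  simp

theorem z_unique (W : Matrix (Fin n) (Fin n) ℤ) (hW : IsUnit W.det) (u y : Fin n → ℤ) (j j' : Fin n)
    (h : rho u y (lin (W j)) = 0) (h' : rho u y (lin (W j')) = 0) : j = j' := by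
  by_contra hne
  obtain ⟨h1, h2⟩ := z_zero W hW u y j h
  obtain ⟨h3, h4⟩ := z_zero W hW u y j' h'
  have h5 := dual_mulVec W hW j j
  have h6 := dual_mulVec W hW j' j
  rw [if_pos rfl, h2, smul_dotProduct, smul_eq_mul] at h5
  rw [if_neg (Ne.symm hne), h4, smul_dotProduct, smul_eq_mul] at h6
  rcases mul_eq_zero.mp h6 with h7 | h7
  · rw [h7] at h3; norm_num at h3
  · rw [h7] at h5; norm_num at h5

theorem cast_sq {K : Type} [Ring K] (e : ℤ) (h : e * e = 1) : (e : K) * (e : K) = 1 := by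
  have := congrArg (Int.cast : ℤ → K) h
  rw [Int.cast_mul, Int.cast_one] at this
  exact this

theorem comp_congr {n : ℕ} {R : Type} (z z' : Fin n → R) (σ : Equiv.Perm (Fin n))
    (h : ∀ j, z (σ j) = z' j) : z' = z ∘ σ := _root_.funext fun j => (h j).symm

theorem aeval_perm {n : ℕ} {R : Type} [CommRing R] [Algebra ℚ R] (z z' : Fin n → R)
    (σ : Equiv.Perm (Fin n)) (h : ∀ j, z (σ j) = z' j) (f : MvPolynomial (Fin n) ℚ)
    (hf : f.IsSymmetric) : aeval z f = aeval z' f := by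
  rw [comp_congr z z' σ h, ← aeval_rename, hf σ]

theorem exists_chi {n : ℕ} {R K : Type} [CommRing R] [Algebra ℚ R] [Field K] [Algebra R K]
    (z : Fin n → R) : ∃ χ : symmetricSubalgebra (Fin n) ℚ →* K,
      ∀ f, χ f = algebraMap R K (aeval z (f : MvPolynomial (Fin n) ℚ)) :=
  ⟨{ toFun := fun f => algebraMap R K (aeval z (f : MvPolynomial (Fin n) ℚ))
     map_one' := by simp
     map_mul' := by intro f g; simp }, fun f => rfl⟩

theorem core' (L : List (FixedPoint n)) (K : Type) [Field K] [Algebra (MvPolynomial (Fin n) ℚ) K]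
    [IsFractionRing (MvPolynomial (Fin n) ℚ) K] [CharZero K]
    (hL : ∀ f : MvPolynomial (Fin n) ℚ, f.IsSymmetric → ∃ g : MvPolynomial (Fin n) ℚ,
      ∑ a : Fin L.length, ((Sg L a : ℤ) : K) *
      algebraMap _ _ (aeval (fun i => lin (Wt L a i)) f) /
      algebraMap _ _ (∏ i, lin (Wt L a i)) = algebraMap _ K g)
    (x0 : Fin L.length × Fin n) [DecidablePred (Rel L x0)] :
    ∑ x ∈ Finset.univ.filter (Rel L x0),
      Sg L x.1 * (Wt L x.1 x.2 ⬝ᵥ dualOf (Wt L x0.1) x0.2) = 0 := by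
  classical
  have huy : Wt L x0.1 x0.2 ⬝ᵥ dualOf (Wt L x0.1) x0.2 = 1 := by
    have := dual_mulVec (Wt L x0.1) (isUnit_Wt L x0.1) x0.2 x0.2
    rwa [if_pos rfl] at this
  obtain ⟨u, hu⟩ : ∃ u, u = Wt L x0.1 x0.2 := ⟨_, rfl⟩
  obtain ⟨y, hy⟩ : ∃ y, y = dualOf (Wt L x0.1) x0.2 := ⟨_, rfl⟩
  rw [← hu, ← hy] at huy
  rw [← hy]
  have hu0 : lin u ≠ 0 := by
    intro h
    have := lin_inj u 0 (by rw [h, lin_zero])
    rw [this] at huy
    simp at huy
  have hρu : rho u y (lin u) = 0 := zero_of_smul u y u huy 1 (by simp)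
  have inj : Function.Injective (algebraMap (MvPolynomial (Fin n) ℚ) K) :=
    IsFractionRing.injective (MvPolynomial (Fin n) ℚ) K
  obtain ⟨z, hz⟩ : ∃ z : Fin L.length → Fin n → (MvPolynomial (Fin n) ℚ),
    ∀ a j, z a j = rho u y (lin (Wt L a j)) := ⟨_, fun _ _ => rfl⟩
  obtain ⟨A, hA⟩ : ∃ A : Finset (Fin L.length), ∀ a, a ∈ A ↔ ∃ j, z a j = 0 :=
    ⟨Finset.univ.filter (fun a => ∃ j, z a j = 0), fun a => by simp⟩
  obtain ⟨i, hi⟩ : ∃ i : Fin L.length → Fin n, ∀ a ∈ A, z a (i a) = 0 := by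
    refine ⟨fun a => if h : ∃ j, z a j = 0 then h.choose else x0.2, fun a ha => ?_⟩
    have h := (hA a).mp ha
    simp only [dif_pos h]
    exact h.choose_spec
  have huniq : ∀ a ∈ A, ∀ j, z a j = 0 → j = i a := fun a ha j hj =>
    z_unique (Wt L a) (isUnit_Wt L a) u y j (i a) (by rw [← hz, hj]) (by rw [← hz, hi a ha])
  obtain ⟨e, he'⟩ : ∃ e : Fin L.length → ℤ, ∀ a, e a = Wt L a (i a) ⬝ᵥ y := ⟨_, fun _ => rfl⟩
  have he : ∀ a ∈ A, e a * e a = 1 ∧ Wt L a (i a) = e a • u := fun a ha => by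
    rw [he']
    exact z_zero (Wt L a) (isUnit_Wt L a) u y (i a) (by rw [← hz, hi a ha])
  obtain ⟨β, hβdef⟩ : ∃ β : Fin L.length → (MvPolynomial (Fin n) ℚ), ∀ a, β a = if a ∈ A then
    C (e a : ℚ) * ∏ j ∈ Finset.univ.erase (i a), lin (Wt L a j) else ∏ j, lin (Wt L a j) :=
    ⟨_, fun _ => rfl⟩
  have hρβ : ∀ a ∈ A, rho u y (β a) = C (e a : ℚ) * ∏ j ∈ Finset.univ.erase (i a), z a j := by
    intro a ha
    rw [hβdef, if_pos ha, map_mul, map_prod, algHom_C, algebraMap_eq]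
    congr 1
    exact Finset.prod_congr rfl fun j _ => (hz a j).symm
  have heQ : ∀ a ∈ A, (e a : ℚ) * (e a : ℚ) = 1 := fun a ha => cast_sq _ (he a ha).1
  have hβ : ∀ a, rho u y (β a) ≠ 0 := by
    intro a
    by_cases ha : a ∈ A
    · rw [hρβ a ha]
      apply mul_ne_zero
      · rw [Ne, C_eq_zero]
        intro h
        have := heQ a ha
        rw [h] at this
        norm_num at this
      · rw [Finset.prod_ne_zero_iff]
        intro j hj h
        exact (Finset.mem_erase.mp hj).1 (huniq a ha j h)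
    · rw [hβdef, if_neg ha, map_prod]
      rw [Finset.prod_ne_zero_iff]
      intro j _ h
      exact ha ((hA a).mpr ⟨j, by rw [hz, h]⟩)
  have hden : ∀ a, ∏ j, lin (Wt L a j) = if a ∈ A then lin u * β a else β a := by
    intro a
    split_ifs with ha
    · rw [hβdef, if_pos ha]
      rw [← Finset.mul_prod_erase _ _ (Finset.mem_univ (i a))]
      conv_lhs => rw [(he a ha).2, lin_smul]
      ring
    · rw [hβdef, if_neg ha]
  choose χ hχdef using fun a => exists_chi (K := K) (z a)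
  obtain ⟨c, hcdef⟩ : ∃ c : Fin L.length → K, ∀ a, c a =
    algebraMap (MvPolynomial (Fin n) ℚ) K (C (Sg L a : ℚ)) / algebraMap (MvPolynomial (Fin n) ℚ) K (rho u y (β a)) :=
    ⟨_, fun _ => rfl⟩
  have hsum : ∀ f : symmetricSubalgebra (Fin n) ℚ, ∑ a ∈ A, c a * χ a f = 0 := by
    intro f
    obtain ⟨g, hg⟩ := hL f.1 f.2
    have h1 : ∑ a, algebraMap (MvPolynomial (Fin n) ℚ) K (C (Sg L a : ℚ) * aeval (fun j => lin (Wt L a j)) f.1) /
        algebraMap (MvPolynomial (Fin n) ℚ) K (if a ∈ A then lin u * β a else β a) = algebraMap (MvPolynomial (Fin n) ℚ) K g := by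
      rw [← hg]
      refine Finset.sum_congr rfl fun a _ => ?_
      rw [← hden a, map_mul]
      congr 2
      have : (C ((Sg L a : ℤ) : ℚ) : MvPolynomial (Fin n) ℚ) = ((Sg L a : ℤ) : MvPolynomial (Fin n) ℚ) := by simp
      rw [this, map_intCast]
    have h2 := residue' (K' := K) (rho u y : (MvPolynomial (Fin n) ℚ) →+* (MvPolynomial (Fin n) ℚ)) (lin u) hu0
      hρu A _ β hβ g h1
    rw [← h2]
    refine Finset.sum_congr rfl fun a _ => ?_
    have h3 : (rho u y : (MvPolynomial (Fin n) ℚ) →+* (MvPolynomial (Fin n) ℚ)) (C (Sg L a : ℚ) * aeval (fun j => lin (Wt L a j)) f.1)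
        = C (Sg L a : ℚ) * aeval (z a) f.1 := by
      show rho u y (C (Sg L a : ℚ) * aeval (fun j => lin (Wt L a j)) f.1) = _
      rw [map_mul, comp_aeval_apply, algHom_C, algebraMap_eq]
      have h4 : (fun i => rho u y (lin (Wt L a i))) = z a := _root_.funext fun i => (hz a i).symm
      rw [h4]
    rw [h3, map_mul, hcdef, hχdef]
    exact div_mul_eq_mul_div _ _ _
  have hded := dedekind A χ c hsum (χ x0.1)
  have hz0 : z x0.1 x0.2 = 0 := by rw [hz, ← hu, hρu]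
  have hx0 : x0.1 ∈ A := (hA x0.1).mpr ⟨x0.2, hz0⟩
  have hi0 : x0.2 = i x0.1 := huniq x0.1 hx0 x0.2 hz0
  -- permutation
  have hperm : ∀ a ∈ A, χ a = χ x0.1 → ∃ σ : Equiv.Perm (Fin n), σ x0.2 = i a ∧
      ∀ j, z a (σ j) = z x0.1 j := by
    intro a ha hχ
    have h3 : ∀ b, ∀ f : MvPolynomial (Fin n) ℚ, (aeval fun j => algebraMap (MvPolynomial (Fin n) ℚ) K (z b j)) f
        = algebraMap (MvPolynomial (Fin n) ℚ) K (aeval (z b) f) :=
      fun b f => aeval_algebraMap_apply K (z b) f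
    obtain ⟨σ, hσ⟩ := perm_of_sym (L := K) (fun j => algebraMap (MvPolynomial (Fin n) ℚ) K (z a j))
      (fun j => algebraMap (MvPolynomial (Fin n) ℚ) K (z x0.1 j)) (by
        intro f hf
        have h1 := DFunLike.congr_fun hχ (⟨f, hf⟩ : symmetricSubalgebra (Fin n) ℚ)
        rw [hχdef, hχdef] at h1
        rw [h3, h3]
        exact h1)
    have hσ' : ∀ j, z a (σ j) = z x0.1 j := fun j => inj (hσ j)
    refine ⟨σ, ?_, hσ'⟩
    apply huniq a ha
    rw [hσ' x0.2, hz0]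
  obtain ⟨D0, hD0⟩ : ∃ D0, D0 = ∏ j ∈ Finset.univ.erase x0.2, z x0.1 j := ⟨_, rfl⟩
  have hD0ne : D0 ≠ 0 := by
    rw [hD0, Finset.prod_ne_zero_iff]
    intro j hj h
    apply (Finset.mem_erase.mp hj).1
    rw [hi0]
    exact huniq x0.1 hx0 j h
  have h6 : algebraMap (MvPolynomial (Fin n) ℚ) K D0 ≠ 0 := by
    rw [Ne, map_eq_zero_iff _ inj]; exact hD0ne
  have hc : ∀ a ∈ A.filter (fun a => χ a = χ x0.1), c a
      = ((Sg L a * e a : ℤ) : K) / algebraMap (MvPolynomial (Fin n) ℚ) K D0 := by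
    intro a ha
    obtain ⟨ha, hχ⟩ := Finset.mem_filter.mp ha
    obtain ⟨σ, hσ0, hσ⟩ := hperm a ha hχ
    have h1 : ∏ j ∈ Finset.univ.erase (i a), z a j = D0 := by
      rw [hD0]
      symm
      apply Finset.prod_equiv σ
      · intro j
        simp only [Finset.mem_erase, Finset.mem_univ, and_true]
        rw [← hσ0, Ne, Ne, EmbeddingLike.apply_eq_iff_eq]
      · intro j _
        exact (hσ j).symm
    rw [hcdef, hρβ a ha, h1]
    have h2 : (C ((Sg L a : ℤ) : ℚ) : MvPolynomial (Fin n) ℚ) = ((Sg L a : ℤ) : MvPolynomial (Fin n) ℚ) := by simp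
    have h3 : (C ((e a : ℤ) : ℚ) : MvPolynomial (Fin n) ℚ) = ((e a : ℤ) : MvPolynomial (Fin n) ℚ) := by simp
    rw [h2, h3, map_mul, map_intCast, map_intCast]
    have h4 : ((e a : ℤ) : K) * ((e a : ℤ) : K) = 1 := cast_sq _ (he a ha).1
    have h5 : ((e a : ℤ) : K) ≠ 0 := by
      intro h; rw [h] at h4; simp at h4
    rw [Int.cast_mul]
    rw [div_eq_div_iff (mul_ne_zero h5 h6) h6]
    linear_combination (- (((Sg L a : ℤ) : K) * algebraMap (MvPolynomial (Fin n) ℚ) K D0)) * h4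
  have hfin : ∑ a ∈ A.filter (fun a => χ a = χ x0.1), Sg L a * e a = 0 := by
    rw [Finset.sum_congr rfl hc, ← Finset.sum_div] at hded
    have h7 := (div_eq_zero_iff.mp hded).resolve_right h6
    rw [← Int.cast_sum] at h7
    exact Int.cast_eq_zero.mp h7
  rw [← hfin]
  have hrel1 : ∀ x, Rel L x0 x → x.1 ∈ A ∧ x.2 = i x.1 ∧ χ x.1 = χ x0.1 := by
    rintro ⟨a, k⟩ ⟨⟨ε, hε, hk⟩, σ, hσ0, hσ⟩
    simp only at hk hσ0 hσ
    rw [← hu] at hk
    have hz1 : z a k = 0 := by rw [hz]; exact zero_of_smul u y _ huy ε hk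
    have haA : a ∈ A := (hA a).mpr ⟨k, hz1⟩
    refine ⟨haA, huniq a haA k hz1, ?_⟩
    have hzz : ∀ j, z a (σ j) = z x0.1 j := by
      intro j
      by_cases hj : j = x0.2
      · rw [hj, hσ0, hz0]
        exact hz1
      · obtain ⟨c', hc'⟩ := hσ j hj
        rw [hz, hz, rho_lin, rho_lin, hc']
        congr 1
        rw [add_dotProduct, smul_dotProduct, ← hu, huy, smul_eq_mul, mul_one, add_smul]
        abel
    apply MonoidHom.ext
    intro f
    rw [hχdef, hχdef, aeval_perm (z a) (z x0.1) σ hzz f.1 f.2]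
  have hrel2 : ∀ a ∈ A.filter (fun a => χ a = χ x0.1), Rel L x0 (a, i a) := by
    intro a ha
    obtain ⟨ha, hχ⟩ := Finset.mem_filter.mp ha
    obtain ⟨σ, hσ0, hσ⟩ := hperm a ha hχ
    refine ⟨⟨e a, (he a ha).1, ?_⟩, σ, hσ0, fun j hj => ?_⟩
    · rw [← hu]; exact (he a ha).2
    have h1 := hσ j
    rw [hz, hz, rho_lin, rho_lin] at h1
    have h2 := lin_inj _ _ h1
    refine ⟨Wt L a (σ j) ⬝ᵥ y - Wt L x0.1 j ⬝ᵥ y, ?_⟩
    show Wt L a (σ j) = _
    rw [sub_smul, ← hu]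
    rw [← sub_eq_zero] at h2 ⊢
    rw [← h2]
    abel
  refine Finset.sum_nbij' (fun x => x.1) (fun a => (a, i a)) ?_ ?_ ?_ ?_ ?_
  · intro x hx
    have := hrel1 x (Finset.mem_filter.mp hx).2
    exact Finset.mem_filter.mpr ⟨this.1, this.2.2⟩
  · intro a ha
    exact Finset.mem_filter.mpr ⟨Finset.mem_univ _, hrel2 a ha⟩
  · intro x hx
    have := hrel1 x (Finset.mem_filter.mp hx).2
    exact Prod.ext rfl this.2.1.symm
  · intro a ha
    rfl
  · intro x hx
    have := hrel1 x (Finset.mem_filter.mp hx).2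
    rw [he', ← this.2.1]

theorem core (L : List (FixedPoint n)) (hL : Integral L) (x0 : Fin L.length × Fin n) 
    [DecidablePred (Rel L x0)] :
    ∑ x ∈ Finset.univ.filter (Rel L x0),
      Sg L x.1 * (Wt L x.1 x.2 ⬝ᵥ dualOf (Wt L x0.1) x0.2) = 0 := by
  haveI : CharZero (FractionRing (MvPolynomial (Fin n) ℚ)) := IsFractionRing.charZero _
  refine core' L (FractionRing (MvPolynomial (Fin n) ℚ)) (fun f hf => ?_) x0
  obtain ⟨g, hg⟩ := hL f hf
  exact ⟨g, by rw [← hg, locSum_eq]⟩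

theorem rel_refl (L : List (FixedPoint n)) (x : Fin L.length × Fin n) : Rel L x x :=
  ⟨⟨1, by norm_num, by simp⟩, 1, rfl, fun j _ => ⟨0, by simp⟩⟩

theorem rel_symm (L : List (FixedPoint n)) (x x' : Fin L.length × Fin n) (h : Rel L x x') :
    Rel L x' x := by
  obtain ⟨⟨ε, hε, hk⟩, σ, hσ0, hσ⟩ := h
  have hk' : Wt L x.1 x.2 = ε • Wt L x'.1 x'.2 := by rw [hk, smul_smul, hε, one_smul]
  refine ⟨⟨ε, hε, hk'⟩, σ⁻¹, ?_, fun j hj => ?_⟩
  · rw [← hσ0]; simp
  · have hj' : σ⁻¹ j ≠ x.2 := by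
      intro h
      apply hj
      rw [← hσ0, ← h]; simp
    obtain ⟨c, hc⟩ := hσ _ hj'
    have h1 : σ (σ⁻¹ j) = j := by simp
    rw [h1] at hc
    refine ⟨-(c * ε), ?_⟩
    rw [hc, hk', smul_smul, neg_smul]
    abel

theorem rel_trans (L : List (FixedPoint n)) (x x' x'' : Fin L.length × Fin n) (h : Rel L x x')
    (h' : Rel L x' x'') : Rel L x x'' := by
  obtain ⟨⟨ε, hε, hk⟩, σ, hσ0, hσ⟩ := h
  obtain ⟨⟨ε', hε', hk'⟩, σ', hσ0', hσ'⟩ := h'
  refine ⟨⟨ε' * ε, by linear_combination (ε * ε) * hε' + hε, by rw [hk', hk, smul_smul]⟩,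
    σ' * σ, ?_, fun j hj => ?_⟩
  · rw [Equiv.Perm.mul_apply, hσ0, hσ0']
  · have hj' : σ j ≠ x'.2 := by
      intro h
      apply hj
      rw [← hσ0] at h
      exact σ.injective h
    obtain ⟨c, hc⟩ := hσ j hj
    obtain ⟨c', hc'⟩ := hσ' _ hj'
    refine ⟨c + c' * ε, ?_⟩
    rw [Equiv.Perm.mul_apply, hc', hc, hk, smul_smul, add_smul, add_assoc]

theorem chain_eq (L : List (FixedPoint n)) :
    chainOf L = ∑ a : Fin L.length, (Sg L a * (Wt L a).det) • pr (List.ofFn (dualOf (Wt L a))) := by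
  rw [chainOf, ← Fin.sum_univ_fun_getElem]
  rfl

theorem done : TaskA := by
  intro n L hL
  classical
  rw [chain_eq, map_sum]
  have h1 : ∀ a : Fin L.length, bd ((Sg L a * (Wt L a).det) • pr (List.ofFn (dualOf (Wt L a))))
      = ∑ k : Fin n, (Sg L a * (Wt L a).det) • F (dualOf (Wt L a)) k := by
    intro a
    have h0 := bd_pr_ofFn (fun k => dualOf (Wt L a) k)
    rw [map_smul, Finset.smul_sum.symm]
    congr 1
  rw [Finset.sum_congr rfl fun a _ => h1 a]
  rw [← Fintype.sum_prod_type' (f := fun a k => (Sg L a * (Wt L a).det) • F (dualOf (Wt L a)) k)]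
  let S : Setoid (Fin L.length × Fin n) :=
    ⟨fun x x' => Rel L x' x, fun x => rel_refl L x, fun h => rel_symm L _ _ h,
      fun h h' => rel_trans L _ _ _ h' h⟩
  apply Finset.sum_cancels_of_partition_cancels S
  intro x0 _
  have hcore := core L hL x0
  have h2 : ∀ x ∈ Finset.univ.filter (Rel L x0),
      (Sg L x.1 * (Wt L x.1).det) • F (dualOf (Wt L x.1)) x.2 =
      (Sg L x.1 * (Wt L x.1 x.2 ⬝ᵥ dualOf (Wt L x0.1) x0.2)) •
        ((Wt L x0.1).det • F (dualOf (Wt L x0.1)) x0.2) := by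
    intro x hx
    obtain ⟨⟨ε, hε, hk⟩, σ, hσ0, hσ⟩ := (Finset.mem_filter.mp hx).2
    rw [← hσ0] at hk ⊢
    rw [F_rel (dualOf (Wt L x.1)) (dualOf (Wt L x0.1)) (dual_injective _ (isUnit_Wt L x.1)) σ x0.2
      (fun j hj => dual_rel (Wt L x.1) (Wt L x0.1) (isUnit_Wt L x.1) (isUnit_Wt L x0.1) σ x0.2 ε
        hk hσ j hj)]
    have h3 := det_rel (Wt L x.1) (Wt L x0.1) σ x0.2 ε hε hk hσ
    have h4 : Wt L x.1 (σ x0.2) ⬝ᵥ dualOf (Wt L x0.1) x0.2 = ε := by
      rw [hk, smul_dotProduct, dual_mulVec (Wt L x0.1) (isUnit_Wt L x0.1)]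
      simp
    rw [h4, smul_smul, smul_smul]
    congr 1
    linear_combination (Sg L x.1) * h3
  have h5 : (Finset.univ.filter (fun x => S x x0)) = Finset.univ.filter (Rel L x0) := rfl
  rw [h5, Finset.sum_congr rfl h2, ← Finset.sum_smul, hcore, zero_smul]

end core

end Pool.Agent.W347.QT
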