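import Pool.Agent.W31.QT.Defs

/-!
# QT-A, part 1: contraction of products of points
-/

set_option linter.all false

namespace Pool.Agent.W347.QT

open Pool.Agent.W31.QT MvPolynomial
open scoped BigOperators

section ext
variable {M : Type} [AddCommGroup M]

theorem contract_pr (φ : (M →₀ ℤ) →ₗ[ℤ] ℤ) (l : List M) :
    CliffordAlgebra.contractLeft (Q := (0 : QuadraticForm ℤ (M →₀ ℤ))) φ (pr l) =
      ∑ i : Fin l.length, ((-1 : ℤ)^(i:ℕ) * φ (Finsupp.single (l.get i) 1)) • pr (l.eraseIdx i) := by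
  induction l with
  | nil =>
    simp only [pr, List.map_nil, List.prod_nil]
    rw [CliffordAlgebra.contractLeft_one]
    rfl
  | cons x l ih =>
    have h1 : pr (x :: l) = pt x * pr l := by simp [pr]
    rw [h1, pt, CliffordAlgebra.contractLeft_ι_mul, ih]
    have h2 : (∑ i : Fin (x :: l).length, ((-1 : ℤ)^(i:ℕ) * φ (Finsupp.single ((x :: l).get i) 1)) • pr ((x :: l).eraseIdx i))
      = (∑ i : Fin (l.length + 1), ((-1 : ℤ)^(i:ℕ) * φ (Finsupp.single ((x :: l).get i) 1)) • pr ((x :: l).eraseIdx i)) := rfl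
    rw [h2, Fin.sum_univ_succ]
    simp only [Fin.val_zero, pow_zero, one_mul, List.eraseIdx_zero, List.tail_cons, Fin.val_succ,
      List.eraseIdx_cons_succ, List.get_cons_succ, pow_succ]
    have h3 : (x :: l).get (0 : Fin (l.length + 1)) = x := rfl
    rw [h3, sub_eq_add_neg, Finset.mul_sum, ← Finset.sum_neg_distrib]
    congr 1
    refine Finset.sum_congr rfl fun i _ => ?_
    have h4 : pr (x :: l.eraseIdx i) = pt x * pr (l.eraseIdx i) := by simp [pr]
    rw [h4, mul_smul_comm, ← neg_smul]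
    congr 1
    have h5 : (x :: l).get i.succ = l.get i := rfl
    rw [h5]
    ring

theorem bd_pr (l : List M) :
    bd (pr l) = ∑ i : Fin l.length, ((-1 : ℤ)^(i:ℕ)) • pr (l.eraseIdx i) := by
  rw [bd, contract_pr]
  refine Finset.sum_congr rfl fun i _ => ?_
  rw [Finsupp.linearCombination_single]
  simp

theorem sum_cast {A : Type} [AddCommMonoid A] {m n : ℕ} (h : m = n) (f : ℕ → A) :
    ∑ i : Fin m, f i = ∑ i : Fin n, f i := by subst h; rfl

theorem bd_pr_ofFn {n : ℕ} (x : Fin n → M) :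
    bd (pr (List.ofFn x)) = ∑ i : Fin n, ((-1 : ℤ)^(i:ℕ)) • pr ((List.ofFn x).eraseIdx i) := by
  rw [bd_pr]
  exact sum_cast (by simp) (fun i => ((-1 : ℤ)^i) • pr ((List.ofFn x).eraseIdx i))

/-- The `i`-th term of the boundary. -/
noncomputable def F {n : ℕ} (x : Fin n → M) (i : Fin n) : E M :=
  ((-1 : ℤ)^(i:ℕ)) • pr ((List.ofFn x).eraseIdx i)

theorem F_eq {n : ℕ} (x : Fin n → M) (hx : Function.Injective x) (k : Fin n) :
    CliffordAlgebra.contractLeft (Q := (0 : QuadraticForm ℤ (M →₀ ℤ)))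
      (Finsupp.lapply (x k)) (pr (List.ofFn x)) = F x k := by
  rw [contract_pr]
  have hk : (k : ℕ) < (List.ofFn x).length := by simp
  rw [Finset.sum_eq_single (⟨k, hk⟩ : Fin (List.ofFn x).length)]
  · rw [F]
    simp
  · intro b _ hb
    have : (List.ofFn x).get b ≠ x k := by
      intro h
      apply hb
      have hb' : (b : ℕ) < n := by simpa using b.2
      have h1 : (List.ofFn x).get b = x ⟨b, hb'⟩ := by simp
      rw [h1] at h
      have := hx h
      apply Fin.ext
      simp [← this]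
    rw [Finsupp.lapply_apply, Finsupp.single_eq_of_ne (Ne.symm this)]
    simp
  · intro h; exact absurd (Finset.mem_univ _) h

theorem pr_ofFn {n : ℕ} (x : Fin n → M) :
    pr (List.ofFn x) = ExteriorAlgebra.ιMulti ℤ n (fun i => Finsupp.single (x i) (1:ℤ)) := by
  rw [ExteriorAlgebra.ιMulti_apply, pr, List.map_ofFn]
  rfl

theorem pr_perm {n : ℕ} (x : Fin n → M) (σ : Equiv.Perm (Fin n)) :
    pr (List.ofFn (fun j => x (σ j))) = ((Equiv.Perm.sign σ : ℤˣ) : ℤ) • pr (List.ofFn x) := by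
  rw [pr_ofFn, pr_ofFn]
  have := (ExteriorAlgebra.ιMulti ℤ n).map_perm (fun i => Finsupp.single (x i) (1:ℤ)) σ
  rw [Units.smul_def] at this
  exact this

theorem F_perm {n : ℕ} (x : Fin n → M) (hx : Function.Injective x) (σ : Equiv.Perm (Fin n))
    (k : Fin n) : F (fun j => x (σ j)) k = ((Equiv.Perm.sign σ : ℤˣ) : ℤ) • F x (σ k) := by
  rw [← F_eq x hx, ← F_eq (fun j => x (σ j)) (hx.comp σ.injective), pr_perm, map_smul]

theorem F_congr {n : ℕ} (x x' : Fin n → M) (k : Fin n) (h : ∀ j, j ≠ k → x j = x' j) :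
    F x k = F x' k := by
  rw [F, F]
  congr 2
  apply List.ext_getElem
  · simp [List.length_eraseIdx]
  · intro m h1 h2
    rw [List.getElem_eraseIdx, List.getElem_eraseIdx]
    split_ifs with h3
    · simp only [List.getElem_ofFn]
      apply h
      intro h4
      rw [Fin.ext_iff] at h4
      simp at h4
      omega
    · simp only [List.getElem_ofFn]
      apply h
      intro h4
      rw [Fin.ext_iff] at h4
      simp at h4
      omega

theorem F_rel {n : ℕ} (x x0 : Fin n → M) (hx : Function.Injective x) (σ : Equiv.Perm (Fin n))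
    (k : Fin n) (h : ∀ j, j ≠ k → x (σ j) = x0 j) :
    F x (σ k) = ((Equiv.Perm.sign σ : ℤˣ) : ℤ) • F x0 k := by
  have h1 := F_perm x hx σ k
  rw [F_congr _ x0 k h] at h1
  rw [h1, smul_smul]
  have : ((Equiv.Perm.sign σ : ℤˣ) : ℤ) * ((Equiv.Perm.sign σ : ℤˣ) : ℤ) = 1 := by
    rw [← Units.val_mul, Int.units_mul_self, Units.val_one]
  rw [this, one_smul]

end ext

section mat
variable {n : ℕ}

theorem dual_mulVec (W : Matrix (Fin n) (Fin n) ℤ) (hW : IsUnit W.det) (i j : Fin n) :
    W i ⬝ᵥ dualOf W j = if i = j then 1 else 0 := by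
  have h1 : W * W⁻¹ = 1 := Matrix.mul_nonsing_inv W hW
  have h2 := congrFun (congrFun h1 i) j
  rw [Matrix.mul_apply, Matrix.one_apply] at h2
  rw [← h2]
  unfold dualOf dotProduct
  refine Finset.sum_congr rfl fun k _ => ?_
  rw [← Matrix.transpose_nonsing_inv, Matrix.transpose_apply]

theorem dual_unique (W : Matrix (Fin n) (Fin n) ℤ) (hW : IsUnit W.det) (v : Fin n → ℤ) (j : Fin n)
    (h : ∀ i, W i ⬝ᵥ v = if i = j then 1 else 0) : v = dualOf W j := by
  have h1 : W.mulVec v = W.mulVec (dualOf W j) := by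
    funext i
    show W i ⬝ᵥ v = W i ⬝ᵥ dualOf W j
    rw [h, dual_mulVec W hW]
  have h2 : W⁻¹ * W = 1 := Matrix.nonsing_inv_mul W hW
  calc v = (W⁻¹ * W).mulVec v := by rw [h2, Matrix.one_mulVec]
    _ = (W⁻¹ * W).mulVec (dualOf W j) := by rw [← Matrix.mulVec_mulVec, h1, Matrix.mulVec_mulVec]
    _ = dualOf W j := by rw [h2, Matrix.one_mulVec]

theorem dual_injective (W : Matrix (Fin n) (Fin n) ℤ) (hW : IsUnit W.det) :
    Function.Injective (dualOf W) := by
  intro i j hij
  by_contra hne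
  have h1 := dual_mulVec W hW i j
  rw [← hij, dual_mulVec W hW i i] at h1
  simp [hne] at h1

/-- the relation on weights implies the relation for the dual bases -/
theorem dual_rel (W W0 : Matrix (Fin n) (Fin n) ℤ) (hW : IsUnit W.det) (hW0 : IsUnit W0.det)
    (σ : Equiv.Perm (Fin n)) (k : Fin n) (ε : ℤ)
    (hk : W (σ k) = ε • W0 k) (h : ∀ j, j ≠ k → ∃ c : ℤ, W (σ j) = W0 j + c • W0 k)
    (j : Fin n) (hj : j ≠ k) : dualOf W (σ j) = dualOf W0 j := by
  symm
  apply dual_unique W hW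
  intro i
  obtain ⟨i', rfl⟩ := σ.surjective i
  simp only [EmbeddingLike.apply_eq_iff_eq]
  by_cases hi : i' = k
  · subst hi
    rw [hk, smul_dotProduct, dual_mulVec W0 hW0, if_neg (Ne.symm hj)]
    simp
  · obtain ⟨c, hc⟩ := h i' hi
    rw [hc, add_dotProduct, smul_dotProduct, dual_mulVec W0 hW0, dual_mulVec W0 hW0,
      if_neg (Ne.symm hj)]
    simp

theorem det_rel (W W0 : Matrix (Fin n) (Fin n) ℤ)
    (σ : Equiv.Perm (Fin n)) (k : Fin n) (ε : ℤ) (hε : ε * ε = 1)
    (hk : W (σ k) = ε • W0 k) (h : ∀ j, j ≠ k → ∃ c : ℤ, W (σ j) = W0 j + c • W0 k) :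
    W.det * ((Equiv.Perm.sign σ : ℤˣ) : ℤ) = ε * W0.det := by
  have h1 : (W.submatrix σ id).det = ((Equiv.Perm.sign σ : ℤˣ) : ℤ) * W.det := by
    rw [Matrix.det_permute, Int.cast_id]
  rw [mul_comm, ← h1]
  choose! c hc using h
  have h2 : (W.submatrix σ id).det = (Matrix.updateRow W0 k (ε • W0 k)).det := by
    apply Matrix.det_eq_of_forall_row_eq_smul_add_const (fun j => if j = k then 0 else c j * ε) k
    · simp
    · intro i j
      by_cases hi : i = k
      · subst hi
        simp only [if_pos rfl, Matrix.updateRow_self, Matrix.submatrix_apply, id]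
        rw [hk]; simp
      · simp only [if_neg hi, Matrix.updateRow_self, Matrix.submatrix_apply, id,
          Matrix.updateRow_ne hi]
        rw [hc i hi]
        simp only [Pi.add_apply, Pi.smul_apply, smul_eq_mul]
        linear_combination (- (c i * W0 k j)) * hε
  rw [h2, Matrix.det_updateRow_smul, Matrix.updateRow_eq_self]

end mat

end Pool.Agent.W347.QT
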