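import Pool.Agent.W347.QT.A1

/-!
# QT-A, part 2: abstract algebra lemmas
-/

set_option linter.all false

namespace Pool.Agent.W347.QT

open Pool.Agent.W31.QT MvPolynomial
open scoped BigOperators

theorem residue {R R' K ι : Type} [CommRing R] [IsDomain R] [CommRing R'] [Field K]
    [Algebra R K] [IsFractionRing R K] [Fintype ι] [DecidableEq ι] (ρ : R →+* R') (x : R)
    (hx : x ≠ 0) (hρx : ρ x = 0) (A : Finset ι) (num β : ι → R) (hβ : ∀ a, β a ≠ 0) (g : R)
    (h : ∑ a, algebraMap R K (num a) / algebraMap R K (if a ∈ A then x * β a else β a)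
      = algebraMap R K g) :
    ∑ a ∈ A, ρ (num a) * ∏ b ∈ Finset.univ.erase a, ρ (β b) = 0 := by
  have inj : Function.Injective (algebraMap R K) := IsFractionRing.injective R K
  have h1 : ∑ a, num a * (if a ∈ A then 1 else x) * ∏ b ∈ Finset.univ.erase a, β b
      = x * g * ∏ b, β b := by
    apply inj
    rw [map_mul, map_mul, ← h, map_sum, mul_assoc, mul_comm, mul_assoc, Finset.sum_mul]
    refine Finset.sum_congr rfl fun a _ => ?_
    have h2 : ∏ b, β b = β a * ∏ b ∈ Finset.univ.erase a, β b := by
      rw [Finset.mul_prod_erase _ _ (Finset.mem_univ a)]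
    have hβa : algebraMap R K (β a) ≠ 0 := by
      rw [Ne, map_eq_zero_iff _ inj]; exact hβ a
    have hx' : algebraMap R K x ≠ 0 := by
      rw [Ne, map_eq_zero_iff _ inj]; exact hx
    rw [h2]
    split_ifs with ha
    · simp only [map_mul, map_one]
      field_simp
    · simp only [map_mul]
      field_simp
  have h3 := congrArg ρ h1
  rw [map_mul, map_mul, hρx, zero_mul, zero_mul, map_sum] at h3
  rw [← h3, ← Finset.sum_filter_add_sum_filter_not Finset.univ (fun a => a ∈ A)]
  rw [Finset.sum_eq_zero (s := Finset.univ.filter (fun a => a ∉ A)), add_zero]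
  · rw [Finset.filter_mem_eq_inter, Finset.univ_inter]
    refine Finset.sum_congr rfl fun a ha => ?_
    rw [if_pos ha, mul_one, map_mul, map_prod]
  · intro a ha
    rw [Finset.mem_filter] at ha
    rw [if_neg ha.2, map_mul, map_mul, hρx, mul_zero, zero_mul]

theorem residue' {R R' K K' ι : Type} [CommRing R] [IsDomain R] [CommRing R'] [IsDomain R']
    [Field K] [Algebra R K] [IsFractionRing R K] [Field K'] [Algebra R' K'] [IsFractionRing R' K']
    [Fintype ι] [DecidableEq ι] (ρ : R →+* R') (x : R)
    (hx : x ≠ 0) (hρx : ρ x = 0) (A : Finset ι) (num β : ι → R) (hβ : ∀ a, ρ (β a) ≠ 0) (g : R)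
    (h : ∑ a, algebraMap R K (num a) / algebraMap R K (if a ∈ A then x * β a else β a)
      = algebraMap R K g) :
    ∑ a ∈ A, algebraMap R' K' (ρ (num a)) / algebraMap R' K' (ρ (β a)) = 0 := by
  have hβ' : ∀ a, β a ≠ 0 := fun a h0 => hβ a (by rw [h0, map_zero])
  have h1 := residue ρ x hx hρx A num β hβ' g h
  have inj : Function.Injective (algebraMap R' K') := IsFractionRing.injective R' K'
  have hne : ∀ a, algebraMap R' K' (ρ (β a)) ≠ 0 := by
    intro a
    rw [Ne, map_eq_zero_iff _ inj]; exact hβ a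
  have hP : (∏ b, algebraMap R' K' (ρ (β b))) ≠ 0 := Finset.prod_ne_zero_iff.mpr fun b _ => hne b
  have h2 : (∑ a ∈ A, algebraMap R' K' (ρ (num a)) / algebraMap R' K' (ρ (β a)))
      * (∏ b, algebraMap R' K' (ρ (β b))) = 0 := by
    rw [← map_zero (algebraMap R' K'), ← h1, map_sum, Finset.sum_mul]
    refine Finset.sum_congr rfl fun a _ => ?_
    rw [← Finset.mul_prod_erase _ _ (Finset.mem_univ a), map_mul, map_prod]
    have := hne a
    field_simp
  exact (mul_eq_zero.mp h2).resolve_right hP

theorem dedekind {G L ι : Type} [Monoid G] [CommRing L] [IsDomain L] [DecidableEq (G →* L)]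
    (A : Finset ι) (χ : ι → G →* L) (c : ι → L)
    (h : ∀ f : G, ∑ a ∈ A, c a * χ a f = 0) (χ0 : G →* L) :
    ∑ a ∈ A.filter (fun a => χ a = χ0), c a = 0 := by
  have LI := linearIndependent_monoidHom G L
  have h1 : (∑ a ∈ A, Finsupp.single (χ a) (c a)) = (0 : (G →* L) →₀ L) := by
    rw [linearIndependent_iff] at LI
    apply LI
    rw [map_sum]
    funext f
    rw [Finset.sum_apply, Pi.zero_apply, ← h f]
    refine Finset.sum_congr rfl fun a _ => ?_
    rw [Finsupp.linearCombination_single]
    rfl
  have h2 := congrArg (fun v : (G →* L) →₀ L => v χ0) h1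
  simp only [Finsupp.coe_finset_sum, Finset.sum_apply, Finsupp.coe_zero, Pi.zero_apply] at h2
  rw [Finset.sum_filter]
  refine Eq.trans ?_ h2
  refine Finset.sum_congr rfl fun a _ => ?_
  rw [Finsupp.single_apply]

theorem exists_perm {n : ℕ} {L : Type} [DecidableEq L] (r r' : Fin n → L)
    (h : Finset.univ.val.map r = Finset.univ.val.map r') :
    ∃ σ : Equiv.Perm (Fin n), ∀ j, r (σ j) = r' j := by
  have key : ∀ c : L, Nonempty ({j // r' j = c} ≃ {j // r j = c}) := by
    intro c
    rw [← Fintype.card_eq]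
    have := congrArg (Multiset.count c) h
    rw [Multiset.count_map, Multiset.count_map] at this
    rw [Fintype.card_subtype, Fintype.card_subtype]
    simp only [eq_comm (a := c)] at this
    exact this.symm
  exact ⟨Equiv.ofFiberEquiv (fun c => Classical.choice (key c)),
    fun j => Equiv.ofFiberEquiv_map _ j⟩

theorem perm_of_sym {n : ℕ} {L : Type} [Field L] [Algebra ℚ L] (r r' : Fin n → L)
    (h : ∀ f : MvPolynomial (Fin n) ℚ, f.IsSymmetric → aeval r f = aeval r' f) :
    ∃ σ : Equiv.Perm (Fin n), ∀ j, r (σ j) = r' j := by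
  classical
  apply exists_perm
  have h1 : ∀ k, (Finset.univ.val.map r).esymm k = (Finset.univ.val.map r').esymm k := by
    intro k
    rw [← aeval_esymm_eq_multiset_esymm (Fin n) ℚ, ← aeval_esymm_eq_multiset_esymm (Fin n) ℚ]
    exact h _ (esymm_isSymmetric (Fin n) ℚ k)
  have h2 : ((Finset.univ.val.map r).map fun t => Polynomial.X - Polynomial.C t).prod
      = ((Finset.univ.val.map r').map fun t => Polynomial.X - Polynomial.C t).prod := by
    rw [Multiset.prod_X_sub_X_eq_sum_esymm, Multiset.prod_X_sub_X_eq_sum_esymm]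
    simp only [Multiset.card_map, h1]
  rw [← Polynomial.roots_multiset_prod_X_sub_C (Finset.univ.val.map r), h2,
    Polynomial.roots_multiset_prod_X_sub_C]

end Pool.Agent.W347.QT
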